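import Pool.Agent.helper90.ZD.SpecB

set_option autoImplicit false

open Complex MeasureTheory

namespace Pool.Agent.ZD

open Pool.Agent.helper84.DM Pool.Agent.helper78.ED Pool.Agent.DH

theorem BLM_exp (t x : ℝ) : HasDerivAt (fun x : ℝ => Complex.exp (((t * x : ℝ) : ℂ) * I))
    (Complex.exp (((t * x : ℝ) : ℂ) * I) * ((t : ℂ) * I)) x := by
  have h1 : HasDerivAt (fun x : ℝ => t * x) t x := by
    have := (hasDerivAt_id x).const_mul t
    rwa [mul_one] at this
  have h2 : HasDerivAt (fun x : ℝ => ((t * x : ℝ) : ℂ) * I) ((t : ℂ) * I) x :=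
    h1.ofReal_comp.mul_const I
  exact h2.cexp

theorem BLM_deriv (T : ℝ) (hT : T ≠ 0) (W : Finset ℝ) (x : ℝ) :
    HasDerivAt (rho W) ((T : ℂ) * I * rho1 T W x) x := by
  have h1 : HasDerivAt (fun x : ℝ => ∑ t ∈ W, Complex.exp (((t * x : ℝ) : ℂ) * I))
      (∑ t ∈ W, Complex.exp (((t * x : ℝ) : ℂ) * I) * ((t : ℂ) * I)) x :=
    HasDerivAt.fun_sum fun t _ => BLM_exp t x
  have h2 : (∑ t ∈ W, Complex.exp (((t * x : ℝ) : ℂ) * I) * ((t : ℂ) * I)) =
      (T : ℂ) * I * rho1 T W x := by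
    unfold rho1
    rw [Finset.mul_sum]
    refine Finset.sum_congr rfl fun t _ => ?_
    have hT' : (T : ℂ) ≠ 0 := by exact_mod_cast hT
    push_cast
    field_simp
  rw [← h2]
  exact h1

theorem BLM_cont (W : Finset ℝ) : Continuous (rho W) := by
  unfold rho
  refine continuous_finsetSum _ fun t _ => ?_
  fun_prop

theorem BLM_cont1 (T : ℝ) (W : Finset ℝ) : Continuous (rho1 T W) := by
  unfold rho1
  refine continuous_finsetSum _ fun t _ => ?_
  fun_prop

theorem BLM (h1 : BG1_stmt) : BLM_stmt := by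
  intro T η x y W hT hη hxy
  have hT0 : 0 < T := by linarith
  have hc := BLM_cont W
  have hc1 := BLM_cont1 T W
  have h2 := h1 (rho W) (fun x => (T : ℂ) * I * rho1 T W x)
    (fun x => BLM_deriv T hT0.ne' W x) (by fun_prop) x (1 / T) (by positivity)
  have h3 : ∀ v : ℝ, 1 / (1 / T) * ‖rho W v‖ ^ 2 + 1 / T * ‖(T : ℂ) * I * rho1 T W v‖ ^ 2 =
      T * (‖rho W v‖ ^ 2 + ‖rho1 T W v‖ ^ 2) := by
    intro v
    rw [norm_mul, norm_mul, Complex.norm_I, Complex.norm_real, Real.norm_of_nonneg hT0.le]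
    field_simp
  simp only [h3] at h2
  rw [intervalIntegral.integral_const_mul] at h2
  have hgc : Continuous (fun v => ‖rho W v‖ ^ 2 + ‖rho1 T W v‖ ^ 2) := by fun_prop
  rw [abs_le] at hxy
  have h4 : ∫ v in (x - 1 / T)..(x + 1 / T), (‖rho W v‖ ^ 2 + ‖rho1 T W v‖ ^ 2) ≤
      ∫ v in (y + -(2 * η))..(y + 2 * η), (‖rho W v‖ ^ 2 + ‖rho1 T W v‖ ^ 2) := by
    apply intervalIntegral.integral_mono_interval
    · linarith [hxy.1, hxy.2]
    · have : 0 < 1 / T := by positivity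
      linarith
    · linarith [hxy.1, hxy.2]
    · exact Filter.Eventually.of_forall fun v => by positivity
    · exact hgc.intervalIntegrable _ _
  have h5 : ∫ v in (-(2 * η))..(2 * η), (‖rho W (y + v)‖ ^ 2 + ‖rho1 T W (y + v)‖ ^ 2) =
      ∫ v in (y + -(2 * η))..(y + 2 * η), (‖rho W v‖ ^ 2 + ‖rho1 T W v‖ ^ 2) :=
    intervalIntegral.integral_comp_add_left
      (fun v => ‖rho W v‖ ^ 2 + ‖rho1 T W v‖ ^ 2) y
  unfold MI
  rw [h5]
  exact h2.trans (mul_le_mul_of_nonneg_left h4 hT0.le)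

end Pool.Agent.ZD
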