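import Pool.Agent.helper84.ZD.SpecA

set_option autoImplicit false

open Complex MeasureTheory

namespace Pool.Agent.ZD

open Pool.Agent.helper84.DM Pool.Agent.helper78.ED Pool.Agent.DH

theorem CUBM_prod (B₁ B₂ B₃ c₁ c₂ c₃ : ℂ) (R η : ℝ) (hB₂ : ‖B₂‖ ≤ R)
    (hB₃ : ‖B₃‖ ≤ R) (hc₁ : ‖c₁‖ ≤ R) (hc₂ : ‖c₂‖ ≤ R) (h₁ : ‖B₁ - c₁‖ ≤ η)
    (h₂ : ‖B₂ - c₂‖ ≤ η) (h₃ : ‖B₃ - c₃‖ ≤ η) :
    ‖B₁ * B₂ * B₃ - c₁ * c₂ * c₃‖ ≤ 3 * R ^ 2 * η := by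
  have hR : 0 ≤ R := (norm_nonneg _).trans hB₂
  have hη : 0 ≤ η := (norm_nonneg _).trans h₁
  have e : B₁ * B₂ * B₃ - c₁ * c₂ * c₃ =
      (B₁ - c₁) * B₂ * B₃ + c₁ * (B₂ - c₂) * B₃ + c₁ * c₂ * (B₃ - c₃) := by ring
  rw [e]
  have t1 : ‖(B₁ - c₁) * B₂ * B₃‖ ≤ η * R * R := by
    rw [norm_mul, norm_mul]
    exact mul_le_mul (mul_le_mul h₁ hB₂ (norm_nonneg _) hη) hB₃ (norm_nonneg _)
      (mul_nonneg hη hR)
  have t2 : ‖c₁ * (B₂ - c₂) * B₃‖ ≤ R * η * R := by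
    rw [norm_mul, norm_mul]
    exact mul_le_mul (mul_le_mul hc₁ h₂ (norm_nonneg _) hR) hB₃ (norm_nonneg _)
      (mul_nonneg hR hη)
  have t3 : ‖c₁ * c₂ * (B₃ - c₃)‖ ≤ R * R * η := by
    rw [norm_mul, norm_mul]
    exact mul_le_mul (mul_le_mul hc₁ hc₂ (norm_nonneg _) hR) h₃ (norm_nonneg _)
      (mul_nonneg hR hR)
  calc ‖(B₁ - c₁) * B₂ * B₃ + c₁ * (B₂ - c₂) * B₃ + c₁ * c₂ * (B₃ - c₃)‖
      ≤ ‖(B₁ - c₁) * B₂ * B₃‖ + ‖c₁ * (B₂ - c₂) * B₃‖ + ‖c₁ * c₂ * (B₃ - c₃)‖ :=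
        norm_add₃_le
    _ ≤ η * R * R + R * η * R + R * R * η := by linarith
    _ = 3 * R ^ 2 * η := by ring

theorem CUBM_sum (W : Finset ℝ) (F : ℝ → ℝ → ℝ → ℂ) (E : ℝ)
    (h : ∀ t₁ ∈ W, ∀ t₂ ∈ W, ∀ t₃ ∈ W, ‖F t₁ t₂ t₃‖ ≤ E) :
    ‖∑ t₁ ∈ W, ∑ t₂ ∈ W, ∑ t₃ ∈ W, F t₁ t₂ t₃‖ ≤ (W.card : ℝ) ^ 3 * E := by
  have h1 : ∀ t₁ ∈ W, ∀ t₂ ∈ W, ‖∑ t₃ ∈ W, F t₁ t₂ t₃‖ ≤ (W.card : ℝ) * E := by
    intro t₁ h₁ t₂ h₂
    refine (norm_sum_le_of_le _ (h t₁ h₁ t₂ h₂)).trans ?_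
    rw [Finset.sum_const, nsmul_eq_mul]
  have h2 : ∀ t₁ ∈ W, ‖∑ t₂ ∈ W, ∑ t₃ ∈ W, F t₁ t₂ t₃‖ ≤
      (W.card : ℝ) * ((W.card : ℝ) * E) := by
    intro t₁ h₁
    refine (norm_sum_le_of_le _ (h1 t₁ h₁)).trans ?_
    rw [Finset.sum_const, nsmul_eq_mul]
  refine (norm_sum_le_of_le _ h2).trans ?_
  rw [Finset.sum_const, nsmul_eq_mul]
  apply le_of_eq
  ring

/-- The difference of the two products for one triple. -/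
theorem CUBM_triple (X T η : ℝ) (M : ℕ) (t₁ t₂ t₃ δ : ℝ) (hX : 1 ≤ X) (hM : 1 ≤ M)
    (hXM : X * M ≤ T ^ 2) (hη : 0 ≤ η)
    (hb1 : ∀ u : ℝ, ‖BX X u‖ ≤ 64 * X) (hb2 : ∀ u : ℝ, ‖Bs X M u‖ ≤ 128 * X * M)
    (hb3 : ‖Bs X M 0‖ ≤ η)
    (hp : ∀ u : ℝ, T ^ δ ≤ |u| → |u| ≤ T →
      ‖BX X u - Complex.exp (-(((u * Real.log X : ℝ) : ℂ) * I)) * Bs X M u‖ ≤ η)
    (h12 : t₁ ≠ t₂ → T ^ δ ≤ |t₁ - t₂| ∧ |t₁ - t₂| ≤ T)
    (h23 : t₂ ≠ t₃ → T ^ δ ≤ |t₂ - t₃| ∧ |t₂ - t₃| ≤ T)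
    (h31 : t₃ ≠ t₁ → T ^ δ ≤ |t₃ - t₁| ∧ |t₃ - t₁| ≤ T) :
    ‖(if t₁ = t₂ ∨ t₂ = t₃ ∨ t₃ = t₁ then 0 else
      BX X (t₁ - t₂) * BX X (t₂ - t₃) * BX X (t₃ - t₁)) -
      Bs X M (t₁ - t₂) * Bs X M (t₂ - t₃) * Bs X M (t₃ - t₁)‖ ≤
      3 * (128 * T ^ 2) ^ 2 * η := by
  have hM' : (1 : ℝ) ≤ M := by exact_mod_cast hM
  have hX0 : 0 ≤ X := by linarith
  have hR : ∀ u : ℝ, ‖Bs X M u‖ ≤ 128 * T ^ 2 := fun u => (hb2 u).trans (by linarith)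
  have hXT : X ≤ T ^ 2 := by
    calc X = X * 1 := (mul_one X).symm
      _ ≤ X * M := mul_le_mul_of_nonneg_left hM' hX0
      _ ≤ T ^ 2 := hXM
  have hR' : ∀ u : ℝ, ‖BX X u‖ ≤ 128 * T ^ 2 := fun u => (hb1 u).trans (by linarith)
  have hRn : 0 ≤ 128 * T ^ 2 := by positivity
  split_ifs with hc
  · rw [zero_sub, norm_neg, norm_mul, norm_mul]
    have key : ∀ a b : ℝ, a ≤ 128 * T ^ 2 → b ≤ 128 * T ^ 2 → 0 ≤ a → 0 ≤ b →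
        ∀ z : ℝ, z ≤ η → 0 ≤ z → a * b * z ≤ 3 * (128 * T ^ 2) ^ 2 * η := by
      intro a b ha hb ha0 hb0 z hz hz0
      have h1 : a * b ≤ (128 * T ^ 2) * (128 * T ^ 2) := mul_le_mul ha hb hb0 hRn
      have h2 : a * b * z ≤ (128 * T ^ 2) * (128 * T ^ 2) * η :=
        mul_le_mul h1 hz hz0 (mul_nonneg hRn hRn)
      have h3 : 0 ≤ (128 * T ^ 2) * (128 * T ^ 2) * η := mul_nonneg (mul_nonneg hRn hRn) hη
      linarith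
    rcases hc with hc | hc | hc
    · subst hc
      rw [sub_self]
      have := key _ _ (hR (t₁ - t₃)) (hR (t₃ - t₁)) (norm_nonneg _) (norm_nonneg _) _ hb3
        (norm_nonneg _)
      calc ‖Bs X M 0‖ * ‖Bs X M (t₁ - t₃)‖ * ‖Bs X M (t₃ - t₁)‖
          = ‖Bs X M (t₁ - t₃)‖ * ‖Bs X M (t₃ - t₁)‖ * ‖Bs X M 0‖ := by ring
        _ ≤ _ := this
    · subst hc
      rw [sub_self]
      have := key _ _ (hR (t₁ - t₂)) (hR (t₂ - t₁)) (norm_nonneg _) (norm_nonneg _) _ hb3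
        (norm_nonneg _)
      calc ‖Bs X M (t₁ - t₂)‖ * ‖Bs X M 0‖ * ‖Bs X M (t₂ - t₁)‖
          = ‖Bs X M (t₁ - t₂)‖ * ‖Bs X M (t₂ - t₁)‖ * ‖Bs X M 0‖ := by ring
        _ ≤ _ := this
    · subst hc
      rw [sub_self]
      exact key _ _ (hR (t₃ - t₂)) (hR (t₂ - t₃)) (norm_nonneg _) (norm_nonneg _) _ hb3
        (norm_nonneg _)
  · push Not at hc
    obtain ⟨c12, c23, c31⟩ := hc
    obtain ⟨a1, a2⟩ := h12 c12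
    obtain ⟨b1, b2⟩ := h23 c23
    obtain ⟨d1, d2⟩ := h31 c31
    have hnorm : ∀ u : ℝ, ‖Complex.exp (-(((u * Real.log X : ℝ) : ℂ) * I))‖ = 1 := by
      intro u
      rw [← neg_mul, ← Complex.ofReal_neg, Complex.norm_exp_ofReal_mul_I]
    have hcn : ∀ u : ℝ,
        ‖Complex.exp (-(((u * Real.log X : ℝ) : ℂ) * I)) * Bs X M u‖ ≤ 128 * T ^ 2 := by
      intro u
      rw [norm_mul, hnorm, one_mul]
      exact hR u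
    have hprod : Bs X M (t₁ - t₂) * Bs X M (t₂ - t₃) * Bs X M (t₃ - t₁) =
        (Complex.exp (-((((t₁ - t₂) * Real.log X : ℝ) : ℂ) * I)) * Bs X M (t₁ - t₂)) *
        (Complex.exp (-((((t₂ - t₃) * Real.log X : ℝ) : ℂ) * I)) * Bs X M (t₂ - t₃)) *
        (Complex.exp (-((((t₃ - t₁) * Real.log X : ℝ) : ℂ) * I)) * Bs X M (t₃ - t₁)) := by
      have he : Complex.exp (-((((t₁ - t₂) * Real.log X : ℝ) : ℂ) * I)) *
          Complex.exp (-((((t₂ - t₃) * Real.log X : ℝ) : ℂ) * I)) *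
          Complex.exp (-((((t₃ - t₁) * Real.log X : ℝ) : ℂ) * I)) = 1 := by
        rw [← Complex.exp_add, ← Complex.exp_add, ← Complex.exp_zero]
        congr 1
        push_cast
        ring
      calc Bs X M (t₁ - t₂) * Bs X M (t₂ - t₃) * Bs X M (t₃ - t₁)
          = 1 * (Bs X M (t₁ - t₂) * Bs X M (t₂ - t₃) * Bs X M (t₃ - t₁)) := (one_mul _).symm
        _ = _ := by rw [← he]; ring
    rw [hprod]
    exact CUBM_prod _ _ _ _ _ _ _ _ (hR' _) (hR' _) (hcn _) (hcn _) (hp _ a1 a2)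
      (hp _ b1 b2) (hp _ d1 d2)

theorem CUBM_q3 (W : Finset ℝ) : 0 ≤ q3 W := by
  unfold q3
  apply intervalIntegral.integral_nonneg (by norm_num)
  intro x _
  positivity

theorem CUBM (h1 : AL2_stmt) (h2 : PR2_stmt) (h3 : BSB_stmt) (h4 : CRD_stmt) : CUB_stmt := by
  intro ε δ hε hδ hδ'
  obtain ⟨C₁, hC₁, hal⟩ := h1 (ε / 2) (by positivity)
  obtain ⟨C₂, T₂, hC₂, hpr⟩ := h2 10 δ (by norm_num) hδ hδ'
  obtain ⟨hb1, hb2, hb3'⟩ := h3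
  obtain ⟨C₃, hC₃, hb3⟩ := hb3' 10 (by norm_num)
  set K : ℝ := 8 * (3 * 128 ^ 2 * (C₂ + C₃)) with hK
  have hK0 : 0 < K := by rw [hK]; positivity
  refine ⟨C₁ + K, max T₂ 1, by positivity, ?_⟩
  intro T hT W hW X hX1 hX2
  have hT2 : T₂ ≤ T := (le_max_left _ _).trans hT
  have hT1 : 1 ≤ T := (le_max_right _ _).trans hT
  have hT0 : 0 < T := by linarith
  obtain ⟨hWT, hWs⟩ := hW
  have hTδ : 1 ≤ T ^ δ := Real.one_le_rpow hT1 hδ.le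
  have hsep1 : ∀ t ∈ W, ∀ t' ∈ W, t ≠ t' → 1 ≤ |t - t'| :=
    fun t ht t' ht' hne => hTδ.trans (hWs t ht t' ht' hne)
  have hq3 := CUBM_q3 W
  have hXone : 1 ≤ X := (Real.one_le_rpow hT1 (by norm_num)).trans hX1
  have hX0 : 0 < X := by linarith
  rcases W.eq_empty_or_nonempty with hWe | hWne
  · subst hWe
    have : CS X ∅ = 0 := by simp [CS]
    rw [this, norm_zero]
    apply mul_nonneg
    · apply mul_nonneg (by positivity)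
      positivity
    · apply add_nonneg
      · positivity
      · exact mul_nonneg (by positivity) hq3
  -- the parameter `M`
  set Y : ℝ := T ^ (1 + δ) / X with hY
  have hY1 : 1 ≤ Y := by
    rw [hY, le_div_iff₀ hX0, one_mul]
    exact hX2
  obtain ⟨M, hMdef⟩ : ∃ M : ℕ, M = ⌊Y⌋₊ := ⟨_, rfl⟩
  have hM1 : 1 ≤ M := by
    rw [hMdef]
    exact Nat.le_floor (by simpa using hY1)
  have hMY : (M : ℝ) ≤ Y := by
    rw [hMdef]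
    exact Nat.floor_le (by linarith)
  have hYM : Y ≤ (M : ℝ) + 1 := by
    rw [hMdef]
    exact (Nat.lt_floor_add_one Y).le
  have hXM : X * M ≤ T ^ (1 + δ) := by
    calc X * M ≤ X * Y := mul_le_mul_of_nonneg_left hMY hX0.le
      _ = T ^ (1 + δ) := by
        rw [hY]
        field_simp
  have hTδ2 : T ^ (1 + δ) ≤ T ^ 2 := by
    rw [← Real.rpow_natCast T 2]
    apply Real.rpow_le_rpow_of_exponent_le hT1
    push_cast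
    linarith
  have hXM2 : X * M ≤ T ^ 2 := hXM.trans hTδ2
  -- the error bound
  set τ : ℝ := T ^ (-(10 : ℝ)) with hτ
  have hτ0 : 0 ≤ τ := Real.rpow_nonneg hT0.le _
  have hτ1 : T ^ 7 * τ ≤ 1 := by
    have e1 : τ = (T ^ 10)⁻¹ := by
      rw [hτ, Real.rpow_neg hT0.le]
      congr 1
      exact_mod_cast Real.rpow_natCast T 10
    rw [e1, ← div_eq_mul_inv, div_le_one (by positivity)]
    exact pow_le_pow_right₀ hT1 (by norm_num)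
  have hdist : ∀ t ∈ W, ∀ t' ∈ W, t ≠ t' → T ^ δ ≤ |t - t'| ∧ |t - t'| ≤ T := by
    intro t ht t' ht' hne
    refine ⟨hWs t ht t' ht' hne, ?_⟩
    rw [abs_le]
    obtain ⟨a1, a2⟩ := hWT t ht
    obtain ⟨b1, b2⟩ := hWT t' ht'
    constructor <;> linarith
  have htr : ∀ t₁ ∈ W, ∀ t₂ ∈ W, ∀ t₃ ∈ W,
      ‖(if t₁ = t₂ ∨ t₂ = t₃ ∨ t₃ = t₁ then 0 else
        BX X (t₁ - t₂) * BX X (t₂ - t₃) * BX X (t₃ - t₁)) -
        Bs X M (t₁ - t₂) * Bs X M (t₂ - t₃) * Bs X M (t₃ - t₁)‖ ≤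
        3 * (128 * T ^ 2) ^ 2 * ((C₂ + C₃) * τ) := by
    intro t₁ ht₁ t₂ ht₂ t₃ ht₃
    refine CUBM_triple X T ((C₂ + C₃) * τ) M t₁ t₂ t₃ δ hXone hM1 hXM2 (by positivity)
      (fun u => hb1 X u hX0.le) (fun u => hb2 X M u hX0.le) ?_ ?_
      (hdist t₁ ht₁ t₂ ht₂) (hdist t₂ ht₂ t₃ ht₃) (hdist t₃ ht₃ t₁ ht₁)
    · refine (hb3 T X hT1 hX1 M).trans ?_
      exact mul_le_mul_of_nonneg_right (by linarith) hτ0
    · intro u hu1 hu2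
      refine (hpr T hT2 X hX1 hX2 u hu1 hu2 M hYM).trans ?_
      exact mul_le_mul_of_nonneg_right (by linarith) hτ0
  have hcard : (W.card : ℝ) ≤ 2 * T := (h4 T W hT1 hWT hsep1).trans (by linarith)
  have hcard0 : (0 : ℝ) ≤ W.card := Nat.cast_nonneg _
  have hcard1 : (1 : ℝ) ≤ W.card := by exact_mod_cast hWne.card_pos
  have hdiff : ‖CS X W - ∑ t₁ ∈ W, ∑ t₂ ∈ W, ∑ t₃ ∈ W,
      Bs X M (t₁ - t₂) * Bs X M (t₂ - t₃) * Bs X M (t₃ - t₁)‖ ≤ K := by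
    have e1 : CS X W - ∑ t₁ ∈ W, ∑ t₂ ∈ W, ∑ t₃ ∈ W,
        Bs X M (t₁ - t₂) * Bs X M (t₂ - t₃) * Bs X M (t₃ - t₁) =
        ∑ t₁ ∈ W, ∑ t₂ ∈ W, ∑ t₃ ∈ W,
          ((if t₁ = t₂ ∨ t₂ = t₃ ∨ t₃ = t₁ then 0 else
            BX X (t₁ - t₂) * BX X (t₂ - t₃) * BX X (t₃ - t₁)) -
            Bs X M (t₁ - t₂) * Bs X M (t₂ - t₃) * Bs X M (t₃ - t₁)) := by
      simp only [CS, Finset.sum_sub_distrib]
    rw [e1]
    refine (CUBM_sum W _ _ htr).trans ?_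
    have e2 : (W.card : ℝ) ^ 3 ≤ (2 * T) ^ 3 := pow_le_pow_left₀ hcard0 hcard 3
    have e3 : 0 ≤ 3 * (128 * T ^ 2) ^ 2 * ((C₂ + C₃) * τ) := by positivity
    calc (W.card : ℝ) ^ 3 * (3 * (128 * T ^ 2) ^ 2 * ((C₂ + C₃) * τ))
        ≤ (2 * T) ^ 3 * (3 * (128 * T ^ 2) ^ 2 * ((C₂ + C₃) * τ)) :=
          mul_le_mul_of_nonneg_right e2 e3
      _ = K * (T ^ 7 * τ) := by rw [hK]; ring
      _ ≤ K * 1 := mul_le_mul_of_nonneg_left hτ1 hK0.le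
      _ = K := mul_one K
  have hmain := hal W X M hsep1 hXone hM1
  -- the powers
  have p1 : ((M : ℝ) * X) ^ (ε / 2) ≤ T ^ ε := by
    calc ((M : ℝ) * X) ^ (ε / 2) ≤ (T ^ 2) ^ (ε / 2) := by
          apply Real.rpow_le_rpow (by positivity) _ (by positivity)
          rw [mul_comm]
          exact hXM2
      _ = T ^ ε := by
          rw [← Real.rpow_natCast T 2, ← Real.rpow_mul hT0.le]
          congr 1
          push_cast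
          ring
  have p2 : (X * M) ^ 2 ≤ T ^ (2 * δ) * T ^ 2 := by
    calc (X * M) ^ 2 ≤ (T ^ (1 + δ)) ^ 2 := pow_le_pow_left₀ (by positivity) hXM 2
      _ = T ^ (2 * δ) * T ^ 2 := by
          rw [← Real.rpow_natCast (T ^ (1 + δ)) 2, ← Real.rpow_mul hT0.le,
            ← Real.rpow_natCast T 2, ← Real.rpow_add hT0]
          congr 1
          push_cast
          ring
  have p3 : X * M ≤ T ^ (2 * δ) * T := by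
    calc X * M ≤ T ^ (1 + δ) := hXM
      _ ≤ T ^ (2 * δ + 1) := Real.rpow_le_rpow_of_exponent_le hT1 (by linarith)
      _ = T ^ (2 * δ) * T := by rw [Real.rpow_add hT0, Real.rpow_one]
  have hcw : 1 ≤ (W.card : ℝ) ^ (3 / 2 : ℝ) := Real.one_le_rpow hcard1 (by norm_num)
  have hTT : T ^ (ε + 2 * δ) = T ^ ε * T ^ (2 * δ) := Real.rpow_add hT0 _ _
  have hTe : 1 ≤ T ^ ε := Real.one_le_rpow hT1 hε.le
  have hTd : 1 ≤ T ^ (2 * δ) := Real.one_le_rpow hT1 (by positivity)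
  have hmain2 : ‖∑ t₁ ∈ W, ∑ t₂ ∈ W, ∑ t₃ ∈ W,
      Bs X M (t₁ - t₂) * Bs X M (t₂ - t₃) * Bs X M (t₃ - t₁)‖ ≤
      C₁ * T ^ (ε + 2 * δ) * (T ^ 2 * (W.card : ℝ) ^ (3 / 2 : ℝ) + X * T * q3 W) := by
    refine hmain.trans ?_
    have q1 : X ^ 2 * ((M : ℝ) ^ 2 * (W.card : ℝ) ^ (3 / 2 : ℝ) + M * q3 W) ≤
        T ^ (2 * δ) * (T ^ 2 * (W.card : ℝ) ^ (3 / 2 : ℝ) + X * T * q3 W) := by
      have r1 : (X * M) ^ 2 * (W.card : ℝ) ^ (3 / 2 : ℝ) ≤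
          T ^ (2 * δ) * T ^ 2 * (W.card : ℝ) ^ (3 / 2 : ℝ) :=
        mul_le_mul_of_nonneg_right p2 (by positivity)
      have r2 : X * (X * M) * q3 W ≤ X * (T ^ (2 * δ) * T) * q3 W :=
        mul_le_mul_of_nonneg_right (mul_le_mul_of_nonneg_left p3 hX0.le) hq3
      calc X ^ 2 * ((M : ℝ) ^ 2 * (W.card : ℝ) ^ (3 / 2 : ℝ) + M * q3 W)
          = (X * M) ^ 2 * (W.card : ℝ) ^ (3 / 2 : ℝ) + X * (X * M) * q3 W := by ring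
        _ ≤ T ^ (2 * δ) * T ^ 2 * (W.card : ℝ) ^ (3 / 2 : ℝ) +
            X * (T ^ (2 * δ) * T) * q3 W := add_le_add r1 r2
        _ = _ := by ring
    have q0 : 0 ≤ X ^ 2 * ((M : ℝ) ^ 2 * (W.card : ℝ) ^ (3 / 2 : ℝ) + M * q3 W) := by
      apply mul_nonneg (by positivity)
      apply add_nonneg (by positivity)
      exact mul_nonneg (by positivity) hq3
    calc C₁ * ((M : ℝ) * X) ^ (ε / 2) * X ^ 2 *
          ((M : ℝ) ^ 2 * (W.card : ℝ) ^ (3 / 2 : ℝ) + M * q3 W)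
        = (C₁ * ((M : ℝ) * X) ^ (ε / 2)) *
          (X ^ 2 * ((M : ℝ) ^ 2 * (W.card : ℝ) ^ (3 / 2 : ℝ) + M * q3 W)) := by ring
      _ ≤ (C₁ * T ^ ε) *
          (T ^ (2 * δ) * (T ^ 2 * (W.card : ℝ) ^ (3 / 2 : ℝ) + X * T * q3 W)) := by
          apply mul_le_mul (mul_le_mul_of_nonneg_left p1 hC₁.le) q1 q0 (by positivity)
      _ = _ := by rw [hTT]; ring
  have herr : K ≤ K * T ^ (ε + 2 * δ) *
      (T ^ 2 * (W.card : ℝ) ^ (3 / 2 : ℝ) + X * T * q3 W) := by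
    have s1 : 1 ≤ T ^ (ε + 2 * δ) := by
      rw [hTT]
      exact one_le_mul_of_one_le_of_one_le hTe hTd
    have s2 : 1 ≤ T ^ 2 * (W.card : ℝ) ^ (3 / 2 : ℝ) + X * T * q3 W := by
      have s3 : 1 ≤ T ^ 2 * (W.card : ℝ) ^ (3 / 2 : ℝ) :=
        one_le_mul_of_one_le_of_one_le (one_le_pow₀ hT1) hcw
      have s4 : 0 ≤ X * T * q3 W := mul_nonneg (by positivity) hq3
      linarith
    have s5 := one_le_mul_of_one_le_of_one_le s1 s2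
    calc K = K * 1 := (mul_one K).symm
      _ ≤ K * (T ^ (ε + 2 * δ) * (T ^ 2 * (W.card : ℝ) ^ (3 / 2 : ℝ) + X * T * q3 W)) :=
          mul_le_mul_of_nonneg_left s5 hK0.le
      _ = _ := by ring
  calc ‖CS X W‖ = ‖(∑ t₁ ∈ W, ∑ t₂ ∈ W, ∑ t₃ ∈ W,
        Bs X M (t₁ - t₂) * Bs X M (t₂ - t₃) * Bs X M (t₃ - t₁)) +
        (CS X W - ∑ t₁ ∈ W, ∑ t₂ ∈ W, ∑ t₃ ∈ W,
          Bs X M (t₁ - t₂) * Bs X M (t₂ - t₃) * Bs X M (t₃ - t₁))‖ := by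
        rw [add_sub_cancel]
    _ ≤ ‖∑ t₁ ∈ W, ∑ t₂ ∈ W, ∑ t₃ ∈ W,
        Bs X M (t₁ - t₂) * Bs X M (t₂ - t₃) * Bs X M (t₃ - t₁)‖ +
        ‖CS X W - ∑ t₁ ∈ W, ∑ t₂ ∈ W, ∑ t₃ ∈ W,
          Bs X M (t₁ - t₂) * Bs X M (t₂ - t₃) * Bs X M (t₃ - t₁)‖ := norm_add_le _ _
    _ ≤ C₁ * T ^ (ε + 2 * δ) * (T ^ 2 * (W.card : ℝ) ^ (3 / 2 : ℝ) + X * T * q3 W) +
        K * T ^ (ε + 2 * δ) * (T ^ 2 * (W.card : ℝ) ^ (3 / 2 : ℝ) + X * T * q3 W) :=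
        add_le_add hmain2 (hdiff.trans herr)
    _ = _ := by ring

end Pool.Agent.ZD
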